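import Pool.Agent.Helper84.FP.Main

/-!
# Fixed points are bounded in terms of the number of their prime factors

`a(n) = ∑_{d ∣ n, d < n} d τ(d)`. A fixed point with `R` distinct prime factors has fewer than
`4 * 6^R` prime factors counted with multiplicity, and is smaller than `2^(8 * 36^R)`.
-/

set_option autoImplicit false

namespace Pool.Agent.Results.MP_43a2f8_nt.BoundedByOmega

open Finset Pool.Agent.Helper91.FP

/-- Every fixed point `n` of `a` satisfies `Ω(n) < 4 * 6^ω(n)` and `n < 2^(8 * 36^ω(n))`. -/
theorem result : ∀ n : ℕ, 0 < n → a n = n →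
    ∑ p ∈ n.primeFactors, n.factorization p < 4 * 6 ^ n.primeFactors.card ∧
      n < 2 ^ (8 * 36 ^ n.primeFactors.card) :=
  Pool.Agent.Helper84.FP.aaa

end Pool.Agent.Results.MP_43a2f8_nt.BoundedByOmega
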