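import Pool.Agent.Helper84.FP.Main

/-!
# The number of fixed points up to `x`

`a(n) = ∑_{d ∣ n, d < n} d τ(d)`. There are at most `exp(C sqrt(log x))` fixed points up to `x`.
-/

set_option autoImplicit false

namespace Pool.Agent.Results.MP_43a2f8_nt.CountUpToX

open Finset Pool.Agent.Helper91.FP

/-- At most `128 * 2^(5 √(log₂ x))` of the integers `1, ..., x` are fixed points of `a`. -/
theorem result : ∀ x : ℕ, (((Icc 1 x).filter fun n ↦ a n = n).card : ℝ) ≤
    128 * 2 ^ (5 * √(Real.logb 2 x)) :=
  Pool.Agent.Helper84.FP.bbb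

end Pool.Agent.Results.MP_43a2f8_nt.CountUpToX
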