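import Pool.Agent.Helper91.FP.FourthFree

/-!
# Classification of the fixed points without fourth-power divisor by factorisations of `2^R + 1`
-/

set_option autoImplicit false

namespace Pool.Agent.Results.MP_43a2f8_nt.SquarefreeClassification

open Finset Pool.Agent.Helper91.FP

/-- Let `n` be a positive integer which is not divisible by the fourth power of a prime, and `R` the
number of its distinct prime factors. Then `n` is a fixed point if and only if it is squarefree
and its prime factors are the numbers
`X(i) = ∑_{j < R} 2^(R-1-j) c(i) c(i+1) ⋯ c(i+j-1)` (`i < R`) for a sequence `c` of period `R`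
with `c(0) ⋯ c(R-1) = 2^R + 1`. -/
theorem result : ∀ n : ℕ, 0 < n → (∀ p, p.Prime → ¬ p ^ 4 ∣ n) →
    (a n = n ↔ Squarefree n ∧ ∃ c : ℕ → ℕ, (∀ i, c (i + n.primeFactors.card) = c i) ∧
      (∏ i ∈ range n.primeFactors.card, c i = 2 ^ n.primeFactors.card + 1) ∧
      n.primeFactors = (range n.primeFactors.card).image (X n.primeFactors.card c)) := by
  intro n hn h4
  constructor
  · intro h
    have hsf : Squarefree n := by
      by_cases h21 : n = 21
      · rw [h21, show (21 : ℕ) = 3 * 7 by norm_num,
          Nat.squarefree_mul (by norm_num : Nat.Coprime 3 7)]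
        exact ⟨Nat.prime_three.prime.squarefree, (by norm_num : Nat.Prime 7).prime.squarefree⟩
      · exact fourth_free hn h h21 h4
    exact ⟨hsf, (classify hn hsf).1 h⟩
  · rintro ⟨hsf, hc⟩
    exact (classify hn hsf).2 hc

/-- The squarefree case (the former statement of this hand-in). -/
theorem squarefree_case (n : ℕ) (hn : 0 < n) (hsf : Squarefree n) :
    (a n = n ↔ ∃ c : ℕ → ℕ, (∀ i, c (i + n.primeFactors.card) = c i) ∧
      (∏ i ∈ range n.primeFactors.card, c i = 2 ^ n.primeFactors.card + 1) ∧
      n.primeFactors = (range n.primeFactors.card).image (X n.primeFactors.card c)) := by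
  have h4 : ∀ p, p.Prime → ¬ p ^ 4 ∣ n := by
    intro p hp hd
    have h1 : IsUnit p := hsf p (dvd_trans ⟨p ^ 2, by ring⟩ hd)
    exact hp.not_isUnit h1
  exact (result n hn h4).trans ⟨fun h ↦ h.2, fun h ↦ ⟨hsf, h⟩⟩

end Pool.Agent.Results.MP_43a2f8_nt.SquarefreeClassification
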