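import Pool.Agent.Helper91.FP.FourthFree

/-!
# The number of prime factors of a fixed point which is not divisible by the fourth power of a prime
-/

set_option autoImplicit false

namespace Pool.Agent.Results.MP_43a2f8_nt.SquarefreeOmega

open Finset Pool.Agent.Helper91.FP

/-- Let `n ≠ 21` be a fixed point which is not divisible by the fourth power of a prime, and `R` the
number of its distinct prime factors. Then `n` is squarefree, `R` is odd, `R ≥ 15`, `R`
is not a prime power, `2^R + 1` has a prime factor `≡ 2 (mod 3)`, `(2^R + 1)/3` has for every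
`M ≥ 3` a prime factor `≢ 1 (mod M)`, and `R` does not belong to the families `m r^k` (`r > 3`
prime, all prime factors of `(2^m + 1)/3` congruent to `1` modulo `r`) and `m 3^k` (`2^m + 1`
without prime factor `≡ 2 (mod 3)`). -/
theorem result : ∀ n : ℕ, 0 < n → (∀ p, p.Prime → ¬ p ^ 4 ∣ n) → a n = n → n ≠ 21 →
    Squarefree n ∧
      Odd n.primeFactors.card ∧ 15 ≤ n.primeFactors.card ∧ ¬ IsPrimePow n.primeFactors.card ∧
      (∃ q, q.Prime ∧ q ∣ 2 ^ n.primeFactors.card + 1 ∧ q % 3 = 2) ∧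
      (∀ M : ℕ, 3 ≤ M → ∃ q, q.Prime ∧ q ∣ (2 ^ n.primeFactors.card + 1) / 3 ∧ q % M ≠ 1) ∧
      (∀ m k r : ℕ, Odd m → r.Prime → 3 < r →
        (∀ q, q.Prime → q ∣ (2 ^ m + 1) / 3 → q % r = 1) → n.primeFactors.card ≠ m * r ^ k) ∧
      (∀ m k : ℕ, Odd m → (∀ q, q.Prime → q ∣ 2 ^ m + 1 → q % 3 ≠ 2) →
        n.primeFactors.card ≠ m * 3 ^ k) ∧
      ∀ k : ℕ, n.primeFactors.card ≠ 7 * 3 ^ k ∧ n.primeFactors.card ≠ 13 * 3 ^ k ∧
        n.primeFactors.card ≠ 19 * 3 ^ k ∧ n.primeFactors.card ≠ 13 * 5 ^ k ∧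
        n.primeFactors.card ≠ 17 * 5 ^ k ∧ n.primeFactors.card ≠ 13 * 7 ^ k ∧
        n.primeFactors.card ≠ 19 * 7 ^ k ∧ n.primeFactors.card ≠ 11 * 31 ^ k :=
  fun _ hn h4 h h21 ↦ ⟨fourth_free hn h h21 h4, sqf_main2 hn h h21 (fourth_free hn h h21 h4)⟩

end Pool.Agent.Results.MP_43a2f8_nt.SquarefreeOmega
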